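import Mathlib

set_option autoImplicit false

/-!
# A closed cone with Gong's property and without bounded base (MP_388f8c_an)

`X` is the space of all `(t, p|[0,1], p(2))`, `t` real, `p` a real polynomial, with the norm of
`ℝ × C([0,1]) × ℝ`, and the cone is `C = {(t, f, s) : ‖f‖ ≤ t}`.
It is closed and pointed, the weak neighbourhood `|t| < ε`, `|s| < ε` of the origin does not
meet `C \ ε B_X`, and the points `(2⁻ⁿ, ± 2⁻ⁿ xⁿ, ± 1)` of the cone show that there is no bounded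
base.
-/

namespace Pool.Agent.Results.MP_388f8c_an.GongClosedConeH94

/-- `C` is a cone in the real vector space `X`: a nonempty set, closed under sums and under
multiplication with nonnegative scalars, with `C ∩ (-C) = {0}`. -/
structure IsPointedCone {X : Type*} [AddCommGroup X] [Module ℝ X] (C : Set X) : Prop where
  nonempty : C.Nonempty
  add_mem : ∀ x ∈ C, ∀ y ∈ C, x + y ∈ C
  smul_mem : ∀ l : ℝ, 0 ≤ l → ∀ x ∈ C, l • x ∈ C
  pointed : C ∩ -C = {0}

/-- `B` is a base of `C`: a nonempty convex subset of `C` such that `0` is not in the norm closure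
of `B` and every nonzero `c ∈ C` is `l • b` with `l > 0`, `b ∈ B` in exactly one way. -/
structure IsBase {X : Type*} [NormedAddCommGroup X] [NormedSpace ℝ X] (C B : Set X) : Prop where
  nonempty : B.Nonempty
  convex : Convex ℝ B
  subset : B ⊆ C
  zero_notMem : (0 : X) ∉ closure B
  existsUnique : ∀ c ∈ C, c ≠ 0 → ∃! q : ℝ × X, 0 < q.1 ∧ q.2 ∈ B ∧ c = q.1 • q.2

/-- Condition (∗): for every `ε ∈ (0,1)`, the origin is not in the closure of `C \ ε B_X` with
respect to the weak topology of `X`. -/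
def GongProperty {X : Type*} [NormedAddCommGroup X] [NormedSpace ℝ X] (C : Set X) : Prop :=
  ∀ ε : ℝ, 0 < ε → ε < 1 →
    toWeakSpace ℝ X 0 ∉ closure (toWeakSpace ℝ X '' (C \ Metric.closedBall (0 : X) ε))

open Polynomial

/-- The unit interval. -/
abbrev I : Set ℝ := Set.Icc (0 : ℝ) 1

/-- The linear map `(t, p) ↦ (t, p|[0,1], p(2))`. -/
noncomputable def L : (ℝ × ℝ[X]) →ₗ[ℝ] (ℝ × C(I, ℝ) × ℝ) where
  toFun x := (x.1, Polynomial.toContinuousMapOn x.2 I, x.2.eval 2)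
  map_add' x y := by
    ext <;> simp
  map_smul' c x := by
    ext <;> simp

/-- The space. -/
abbrev E : Type := ↥(LinearMap.range L)

/-- The cone. -/
def K : Set E := {x | ‖x.1.2.1‖ ≤ x.1.1}

theorem eq_zero_of (x : E) (h1 : x.1.1 = 0) (h2 : x.1.2.1 = 0) : x = 0 := by
  obtain ⟨⟨t, f, s⟩, ⟨⟨t', p⟩, hp⟩⟩ := x
  simp only at h1 h2
  have ha : t' = t := congrArg Prod.fst hp
  have hb : Polynomial.toContinuousMapOn p I = f := congrArg (fun z => z.2.1) hp
  have hc : p.eval 2 = s := congrArg (fun z => z.2.2) hp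
  have hp0 : p = 0 := by
    apply Polynomial.eq_zero_of_infinite_isRoot
    apply (Set.Icc_infinite (show (0:ℝ) < 1 by norm_num)).mono
    intro y hy
    have h3 : (Polynomial.toContinuousMapOn p I) ⟨y, hy⟩ = 0 := by
      rw [hb, h2]; rfl
    simpa using h3
  subst hp0
  apply Subtype.ext
  simp only [Polynomial.eval_zero] at hc
  show (t, f, s) = (0, 0, 0)
  rw [h1, h2, ← hc]

theorem cone : IsPointedCone K where
  nonempty := ⟨0, by simp [K]⟩
  add_mem x hx y hy := by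
    simp only [K, Set.mem_ofPred_eq] at *
    exact (norm_add_le _ _).trans (add_le_add hx hy)
  smul_mem l hl x hx := by
    simp only [K, Set.mem_ofPred_eq] at *
    show ‖l • x.1.2.1‖ ≤ l * x.1.1
    rw [norm_smul, Real.norm_of_nonneg hl]
    exact mul_le_mul_of_nonneg_left hx hl
  pointed := by
    apply Set.eq_singleton_iff_unique_mem.2
    refine ⟨by simp [K], ?_⟩
    rintro x ⟨h1, h2⟩
    have h3 : ‖x.1.2.1‖ ≤ x.1.1 := h1
    have h4 : ‖(-x).1.2.1‖ ≤ (-x).1.1 := h2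
    have h5 : ‖-x.1.2.1‖ ≤ -x.1.1 := h4
    rw [norm_neg] at h5
    have h6 := norm_nonneg x.1.2.1
    apply eq_zero_of
    · linarith
    · apply norm_eq_zero.1; linarith

theorem closed : IsClosed K := by
  apply isClosed_le
  · exact continuous_norm.comp (continuous_fst.comp (continuous_snd.comp continuous_subtype_val))
  · exact continuous_fst.comp continuous_subtype_val

/-- The functional `t`. -/
noncomputable def ft : E →L[ℝ] ℝ :=
  (ContinuousLinearMap.fst ℝ ℝ (C(I, ℝ) × ℝ)).comp (LinearMap.range L).subtypeL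

/-- The functional `p(2)`. -/
noncomputable def fs : E →L[ℝ] ℝ :=
  ((ContinuousLinearMap.snd ℝ C(I, ℝ) ℝ).comp
    (ContinuousLinearMap.snd ℝ ℝ (C(I, ℝ) × ℝ))).comp (LinearMap.range L).subtypeL

theorem ft_apply (x : E) : ft x = x.1.1 := rfl
theorem fs_apply (x : E) : fs x = x.1.2.2 := rfl

theorem norm_le_of_mem {x : E} (hx : x ∈ K) : ‖x‖ ≤ max |ft x| |fs x| := by
  have h : ‖x‖ = max ‖x.1.1‖ (max ‖x.1.2.1‖ ‖x.1.2.2‖) := rfl
  rw [h]
  have h2 : ‖x.1.2.1‖ ≤ x.1.1 := hx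
  refine max_le (le_max_left _ _) (max_le ?_ (le_max_right _ _))
  exact (h2.trans (le_abs_self _)).trans (le_max_left _ _)

/-- A weak neighbourhood. -/
theorem gong : GongProperty K := by
  intro ε h0 _ hmem
  have hc : ∀ f : E →L[ℝ] ℝ, Continuous fun y : WeakSpace ℝ E => f ((toWeakSpace ℝ E).symm y) :=
    fun f => WeakBilin.eval_continuous _ f
  have hopen : IsOpen {y : WeakSpace ℝ E |
      |ft ((toWeakSpace ℝ E).symm y)| < ε ∧ |fs ((toWeakSpace ℝ E).symm y)| < ε} :=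
    (isOpen_lt (hc ft).abs continuous_const).inter (isOpen_lt (hc fs).abs continuous_const)
  rw [mem_closure_iff] at hmem
  obtain ⟨y, ⟨hy1, hy2⟩, ⟨x, ⟨hxK, hxB⟩, rfl⟩⟩ := hmem _ hopen (by simp [h0])
  rw [LinearEquiv.symm_apply_apply] at hy1 hy2
  apply hxB
  rw [mem_closedBall_zero_iff]
  exact (norm_le_of_mem hxK).trans (max_le hy1.le hy2.le)

/-- A bounded base gives a functional that is bounded below by a multiple of the norm. -/
theorem base_functional {X : Type*} [NormedAddCommGroup X] [NormedSpace ℝ X] {C B : Set X}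
    (hB : IsBase C B) (hb : Bornology.IsBounded B) :
    ∃ (f : X →L[ℝ] ℝ) (c : ℝ), 0 < c ∧ ∀ x ∈ C, c * ‖x‖ ≤ f x := by
  obtain ⟨f, u, hu1, hu2⟩ := geometric_hahn_banach_point_closed (hB.convex.closure)
    isClosed_closure hB.zero_notMem
  rw [map_zero] at hu1
  obtain ⟨M, hM0, hM⟩ := hb.exists_pos_norm_le
  refine ⟨f, u / M, by positivity, ?_⟩
  intro x hx
  by_cases hx0 : x = 0
  · simp [hx0]
  obtain ⟨⟨l, b⟩, ⟨hl, hbB, hxe⟩, -⟩ := hB.existsUnique x hx hx0
  simp only at hl hbB hxe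
  have h1 : u < f b := hu2 b (subset_closure hbB)
  have h2 : ‖b‖ ≤ M := hM b hbB
  rw [hxe, norm_smul, map_smul, smul_eq_mul, Real.norm_of_nonneg hl.le]
  have h3 : u / M * ‖b‖ ≤ f b := by
    calc u / M * ‖b‖ ≤ u / M * M := by
          apply mul_le_mul_of_nonneg_left h2; positivity
      _ = u := by field_simp
      _ ≤ f b := h1.le
  calc u / M * (l * ‖b‖) = l * (u / M * ‖b‖) := by ring
    _ ≤ l * f b := mul_le_mul_of_nonneg_left h3 hl.le

/-- In a cone with a bounded base the norm of a sum is bounded below by a multiple of the sum of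
the norms. -/
theorem base_norm {X : Type*} [NormedAddCommGroup X] [NormedSpace ℝ X] {C B : Set X}
    (hB : IsBase C B) (hb : Bornology.IsBounded B) :
    ∃ c : ℝ, 0 < c ∧ ∀ x ∈ C, ∀ y ∈ C, c * (‖x‖ + ‖y‖) ≤ ‖x + y‖ := by
  obtain ⟨f, c, hc, hf⟩ := base_functional hB hb
  refine ⟨c / (‖f‖ + 1), by positivity, fun x hx y hy => ?_⟩
  have h1 := hf x hx
  have h2 := hf y hy
  have h3 : f (x + y) ≤ ‖f‖ * ‖x + y‖ := (le_abs_self _).trans (f.le_opNorm _)
  rw [map_add] at h3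
  rw [div_mul_eq_mul_div, div_le_iff₀ (by positivity)]
  nlinarith [norm_nonneg (x + y)]

/-- The points `(2⁻ⁿ, σ 2⁻ⁿ xⁿ, σ)`. -/
noncomputable def pt (σ : ℝ) (n : ℕ) : E :=
  ⟨L ((2⁻¹ : ℝ) ^ n, Polynomial.C (σ * (2⁻¹ : ℝ) ^ n) * Polynomial.X ^ n), ⟨_, rfl⟩⟩

theorem ft_pt (σ : ℝ) (n : ℕ) : ft (pt σ n) = (2⁻¹ : ℝ) ^ n := rfl

theorem fs_pt (σ : ℝ) (n : ℕ) : fs (pt σ n) = σ := by
  have h : fs (pt σ n) =
    (Polynomial.C (σ * (2⁻¹ : ℝ) ^ n) * Polynomial.X ^ n : ℝ[X]).eval 2 := rfl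
  rw [h]
  simp only [Polynomial.eval_mul, Polynomial.eval_C, Polynomial.eval_pow, Polynomial.eval_X]
  rw [mul_assoc, ← mul_pow]
  norm_num

theorem pt_mem (σ : ℝ) (hσ : |σ| = 1) (n : ℕ) : pt σ n ∈ K := by
  show ‖Polynomial.toContinuousMapOn
    (Polynomial.C (σ * (2⁻¹ : ℝ) ^ n) * Polynomial.X ^ n) I‖ ≤ (2⁻¹ : ℝ) ^ n
  rw [ContinuousMap.norm_le _ (by positivity)]
  rintro ⟨y, hy0, hy1⟩
  simp only [Polynomial.toContinuousMapOn_apply, Polynomial.toContinuousMap_apply,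
    Polynomial.eval_mul, Polynomial.eval_C, Polynomial.eval_pow, Polynomial.eval_X]
  rw [Real.norm_eq_abs, abs_mul, abs_mul, hσ, one_mul, abs_of_nonneg (by positivity : (0:ℝ) ≤ 2⁻¹ ^ n),
    abs_of_nonneg (by positivity : (0:ℝ) ≤ y ^ n)]
  exact mul_le_of_le_one_right (by positivity) (pow_le_one₀ hy0 hy1)

theorem one_le_norm_pt (σ : ℝ) (hσ : |σ| = 1) (n : ℕ) : 1 ≤ ‖pt σ n‖ := by
  have h : ‖pt σ n‖ = max ‖(pt σ n).1.1‖ (max ‖(pt σ n).1.2.1‖ ‖(pt σ n).1.2.2‖) := rfl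
  rw [h]
  refine le_max_of_le_right (le_max_of_le_right ?_)
  rw [← fs_apply, fs_pt, Real.norm_eq_abs, hσ]

theorem norm_sum_pt (n : ℕ) : ‖pt 1 n + pt (-1) n‖ = 2 * (2⁻¹ : ℝ) ^ n := by
  have h2 : (pt 1 n + pt (-1) n) =
      (⟨L (2 * (2⁻¹ : ℝ) ^ n, 0), ⟨_, rfl⟩⟩ : E) := by
    apply Subtype.ext
    show L _ + L _ = L _
    rw [← map_add]
    congr 1
    ext
    · simp only [Prod.mk_add_mk]; ring
    · simp
  rw [h2]
  have h3 : L (2 * (2⁻¹ : ℝ) ^ n, 0) = (2 * (2⁻¹ : ℝ) ^ n, 0, 0) := by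
    ext <;> simp [L]
  show ‖L (2 * (2⁻¹ : ℝ) ^ n, 0)‖ = _
  rw [h3, Prod.norm_mk, Prod.norm_mk, norm_zero, norm_zero, max_self, Real.norm_eq_abs,
    abs_of_nonneg (by positivity), max_eq_left (by positivity)]

theorem no_base : ¬ ∃ B : Set E, IsBase K B ∧ Bornology.IsBounded B := by
  rintro ⟨B, hB, hb⟩
  obtain ⟨c, hc, hf⟩ := base_norm hB hb
  have key : ∀ n : ℕ, 2 * c ≤ 2 * (2⁻¹ : ℝ) ^ n := by
    intro n
    have h1 := hf _ (pt_mem 1 (by norm_num) n) _ (pt_mem (-1) (by norm_num) n)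
    have h3 := one_le_norm_pt 1 (by norm_num) n
    have h4 := one_le_norm_pt (-1) (by norm_num) n
    rw [norm_sum_pt] at h1
    nlinarith
  have hlim : Filter.Tendsto (fun n : ℕ => 2 * (2⁻¹ : ℝ) ^ n) Filter.atTop
      (nhds (2 * 0)) :=
    (tendsto_pow_atTop_nhds_zero_of_lt_one (by norm_num) (by norm_num)).const_mul 2
  have := ge_of_tendsto' hlim key
  linarith

/-- **Answer to Q1 (yes).** There are a real normed space `X` and a norm-closed (pointed, convex)
cone `C ⊆ X` such that `0 ∉ weak closure of C \ ε B_X` for every `ε ∈ (0,1)`, but `C` has no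
bounded base. -/
theorem result : ∃ (X : Type) (_ : NormedAddCommGroup X) (_ : NormedSpace ℝ X) (C : Set X),
    IsPointedCone C ∧ IsClosed C ∧ GongProperty C ∧
      ¬ ∃ B : Set X, IsBase C B ∧ Bornology.IsBounded B :=
  ⟨E, inferInstance, inferInstance, K, cone, closed, gong, no_base⟩

end Pool.Agent.Results.MP_388f8c_an.GongClosedConeH94
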